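import Pool.Agent.Q2.PIM.Fin
import Pool.Agent.Q2.PIM.Gap

/-!
# MP_b2f0a7_al: a reduced enveloping algebra with `m ≠ q`

The field may be algebraically closed. The Lie algebra is `pgl_6(k)`, the inner derivations of the
algebra of `6 × 6` matrices, the `2`-map is the square of derivations, and `χ = 0`.
-/

set_option autoImplicit false

namespace Pool.Agent.Results.MP_b2f0a7_al.PglSix

open Pool.Agent.Helper700.Red Pool.Agent.Q2.PIM

attribute [local instance 100] LieRing.ofAssociativeRing

/-- For every field `k` of characteristic two (in particular every algebraically closed one) the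
Lie algebra `pgl_6(k)` of the inner derivations of the algebra of `6 × 6` matrices, with the
`2`-map given by the square of a derivation, has `m ≠ q` for `χ = 0`: the smallest
dimension `m` of a projective indecomposable module is at least `6 * 2 ^ 15`, and the
largest power `q` of two dividing the dimensions of all of them is at most `2 ^ 17`. -/
theorem result (k : Type) [Field k] [CharP k 2] :
    InnerGap 2 k (Matrix (Fin 6) (Fin 6) k) (6 * 2 ^ 15) (2 ^ 17) := by
  obtain ⟨P, h1, m, q, h2, h3, h4, h5⟩ := Pool.Agent.Q2.PIM.main k
  refine ⟨P, h1, inferInstanceAs (Module.Finite k (pgl 6 k)), m, q, h2, h3, ?_, h4, h5⟩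
  intro h6
  rw [h6] at h4
  norm_num at h4 h5
  omega

end Pool.Agent.Results.MP_b2f0a7_al.PglSix
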